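import Pool.Agent.Lib.helper1.NilC

namespace Pool.Agent.Results.MP_4977d9_al.NoUniversal

theorem result (F : Type) [Field F] [Countable F] (U : Type) [NonUnitalRing U] [Module F U]
    [IsScalarTower F U U] [SMulCommClass F U U]
    (halg : ∀ a : U, ∃ p : Polynomial F, p ≠ 0 ∧
      p.sum (fun i c => c • (fun x : U => a * x)^[i] a) = 0)
    (hr : Module.rank F U ≤ Cardinal.aleph0) :
    ∃ (B : Type) (_ : NonUnitalRing B) (_ : Module F B) (_ : IsScalarTower F B B)
      (_ : SMulCommClass F B B),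
      (∀ b : B, ∃ p : Polynomial F, p ≠ 0 ∧
        p.sum (fun i c => c • (fun x : B => b * x)^[i] b) = 0) ∧
      Module.rank F B ≤ Cardinal.aleph0 ∧ ¬ ∃ f : U →ₙₐ[F] B, Function.Surjective f := by
  obtain ⟨B, _, _, _, _, h1, h2, h3⟩ := Pool.Agent.Lib.Helper1.Nil.countable_case hr halg
  refine ⟨B, inferInstance, inferInstance, inferInstance, inferInstance, fun b => ?_, h2, h3⟩
  obtain ⟨d, hd⟩ := h1 b
  refine ⟨Polynomial.X ^ d, pow_ne_zero _ Polynomial.X_ne_zero, ?_⟩
  rw [← Polynomial.monomial_one_right_eq_X_pow, Polynomial.sum_monomial_index _ _ (by simp), hd,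
    smul_zero]

end Pool.Agent.Results.MP_4977d9_al.NoUniversal
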